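import Mathlib

/-! # Hensel's lemma in several variables (helper22)

`hensel`: over an `I`-adically complete ring, an approximate zero of a system of polynomials at
which the Jacobian matrix has a right inverse modulo `I` lifts to an exact zero. -/

set_option autoImplicit false

namespace Pool.Agent.Lib.MP_f80667_ag

open MvPolynomial

section Taylor

variable {R : Type*} [CommRing R] {τ : Type*} [Fintype τ]

omit [Fintype τ] in
/-- A polynomial is congruent at congruent points. -/
theorem eval_sub_eval_mem (J : Ideal R) (p : MvPolynomial τ R) (b c : τ → R)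
    (hh : ∀ k, b k - c k ∈ J) : eval b p - eval c p ∈ J := by
  rw [← Ideal.Quotient.mk_eq_mk_iff_sub_mem]
  have h1 : ∀ x : τ → R, Ideal.Quotient.mk J (eval x p) =
      eval₂ (Ideal.Quotient.mk J) (fun k => Ideal.Quotient.mk J (x k)) p := by
    intro x
    have := eval₂_comp_left (Ideal.Quotient.mk J) (RingHom.id R) x p
    simpa [eval₂_id, Function.comp_def] using this
  rw [h1, h1]
  congr 1
  funext k
  exact (Ideal.Quotient.mk_eq_mk_iff_sub_mem _ _).2 (hh k)

/-- The first order Taylor expansion of a polynomial. -/
theorem taylor_mem (J : Ideal R) (p : MvPolynomial τ R) (b h : τ → R) (hh : ∀ k, h k ∈ J) :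
    eval (fun k => b k + h k) p - eval b p - ∑ k, eval b (pderiv k p) * h k ∈ J ^ 2 := by
  classical
  induction p using MvPolynomial.induction_on with
  | C r => simp
  | add p q hp hq =>
    have := (J ^ 2).add_mem hp hq
    have e : eval (fun k => b k + h k) (p + q) - eval b (p + q) -
        ∑ k, eval b (pderiv k (p + q)) * h k =
        (eval (fun k => b k + h k) p - eval b p - ∑ k, eval b (pderiv k p) * h k) +
        (eval (fun k => b k + h k) q - eval b q - ∑ k, eval b (pderiv k q) * h k) := by
      simp only [map_add, add_mul, Finset.sum_add_distrib]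
      ring
    rw [e]
    exact this
  | mul_X p n hp =>
    have e : eval (fun k => b k + h k) (p * X n) - eval b (p * X n) -
        ∑ k, eval b (pderiv k (p * X n)) * h k =
        (eval (fun k => b k + h k) p - eval b p - ∑ k, eval b (pderiv k p) * h k) * (b n + h n) +
        (∑ k, eval b (pderiv k p) * h k) * h n := by
      have e1 : ∑ k, eval b (pderiv k (p * X n)) * h k =
          (∑ k, eval b (pderiv k p) * h k) * b n + eval b p * h n := by
        have : ∀ k, eval b (pderiv k (p * X n)) * h k =
            eval b (pderiv k p) * h k * b n + (if k = n then eval b p * h n else 0) := by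
          intro k
          rw [Derivation.leibniz]
          by_cases hk : k = n
          · subst hk
            simp only [pderiv_X_self, smul_eq_mul, mul_one, map_add, map_mul, eval_X, if_true]
            ring
          · rw [pderiv_X_of_ne (Ne.symm hk)]
            simp only [smul_eq_mul, mul_zero, zero_add, map_mul, eval_X, if_neg hk]
            ring
        rw [Finset.sum_congr rfl (fun k _ => this k), Finset.sum_add_distrib, ← Finset.sum_mul,
          Finset.sum_ite_eq' Finset.univ n]
        simp
      rw [e1]
      simp only [map_mul, eval_X]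
      ring
    rw [e]
    refine (J ^ 2).add_mem ((J ^ 2).mul_mem_right _ hp) ?_
    rw [pow_two]
    exact Ideal.mul_mem_mul (J.sum_mem fun k _ => J.mul_mem_left _ (hh k)) (hh n)

end Taylor

section Hensel

variable {R : Type*} [CommRing R] {σ τ : Type*} [Fintype σ] [DecidableEq σ] [Fintype τ]

/-- The Newton iteration with a fixed right inverse `W` of the Jacobian matrix. -/
noncomputable def newton (g : σ → MvPolynomial τ R) (a : τ → R) (W : τ → σ → R) : ℕ → τ → R
  | 0 => a
  | n + 1 => fun k => newton g a W n k + -∑ i, W k i * eval (newton g a W n) (g i)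

theorem newton_mem (I : Ideal R) (g : σ → MvPolynomial τ R) (a : τ → R) (W : τ → σ → R)
    (h0 : ∀ i, eval a (g i) ∈ I)
    (hW : ∀ i j, ∑ k, eval a (pderiv k (g i)) * W k j - (if i = j then 1 else 0) ∈ I) (n : ℕ) :
    (∀ k, newton g a W n k - a k ∈ I) ∧ ∀ i, eval (newton g a W n) (g i) ∈ I ^ (n + 1) := by
  induction n with
  | zero =>
    refine ⟨fun k => ?_, fun i => ?_⟩
    · have : newton g a W 0 k - a k = 0 := by simp [newton]
      rw [this]
      exact I.zero_mem
    · simpa [newton] using h0 i
  | succ n ih =>
    obtain ⟨ih1, ih2⟩ := ih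
    have hle : I ^ (n + 1) ≤ I := Ideal.pow_le_self (Nat.succ_ne_zero n)
    have hh : ∀ k, -∑ i, W k i * eval (newton g a W n) (g i) ∈ I ^ (n + 1) := fun k =>
      neg_mem (sum_mem fun i _ => Ideal.mul_mem_left _ _ (ih2 i))
    refine ⟨fun k => ?_, fun i => ?_⟩
    · have e : newton g a W (n + 1) k - a k =
          (newton g a W n k - a k) + -∑ i, W k i * eval (newton g a W n) (g i) := by
        simp only [newton]
        ring
      rw [e]
      exact I.add_mem (ih1 k) (hle (hh k))
    · have h1 := taylor_mem (I ^ (n + 1)) (g i) (newton g a W n)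
        (fun k => -∑ i, W k i * eval (newton g a W n) (g i)) hh
      have hle2 : (I ^ (n + 1)) ^ 2 ≤ I ^ (n + 1 + 1) := by
        rw [← pow_mul]
        exact Ideal.pow_le_pow_right (by omega)
      have h2 := hle2 h1
      have e1 : (fun k => newton g a W n k + -∑ i, W k i * eval (newton g a W n) (g i)) =
          newton g a W (n + 1) := rfl
      rw [e1] at h2
      -- the matrix product at the current point
      have h3 : ∀ j, ∑ k, eval (newton g a W n) (pderiv k (g i)) * W k j -
          (if i = j then 1 else 0) ∈ I := by
        intro j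
        have e2 : ∑ k, eval (newton g a W n) (pderiv k (g i)) * W k j -
            (if i = j then 1 else 0) =
            ∑ k, (eval (newton g a W n) (pderiv k (g i)) - eval a (pderiv k (g i))) * W k j +
            (∑ k, eval a (pderiv k (g i)) * W k j - (if i = j then 1 else 0)) := by
          simp only [sub_mul, Finset.sum_sub_distrib]
          ring
        rw [e2]
        refine I.add_mem (I.sum_mem fun k _ => I.mul_mem_right _ ?_) (hW i j)
        exact eval_sub_eval_mem I _ _ _ ih1
      have e3 : ∑ k, eval (newton g a W n) (pderiv k (g i)) *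
          (-∑ j, W k j * eval (newton g a W n) (g j)) =
          -∑ j, (∑ k, eval (newton g a W n) (pderiv k (g i)) * W k j) *
            eval (newton g a W n) (g j) := by
        simp only [Finset.mul_sum, mul_neg, Finset.sum_neg_distrib, Finset.sum_mul]
        rw [Finset.sum_comm]
        congr 1
        refine Finset.sum_congr rfl fun j _ => Finset.sum_congr rfl fun k _ => ?_
        ring
      have e4 : eval (newton g a W n) (g i) =
          ∑ j, (if i = j then (1 : R) else 0) * eval (newton g a W n) (g j) := by
        simp
      have e5 : eval (newton g a W (n + 1)) (g i) =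
          (eval (newton g a W (n + 1)) (g i) - eval (newton g a W n) (g i) -
            ∑ k, eval (newton g a W n) (pderiv k (g i)) *
              (-∑ j, W k j * eval (newton g a W n) (g j))) -
          ∑ j, (∑ k, eval (newton g a W n) (pderiv k (g i)) * W k j -
            (if i = j then 1 else 0)) * eval (newton g a W n) (g j) := by
        simp only [sub_mul, Finset.sum_sub_distrib]
        rw [e3, ← e4]
        ring
      rw [e5]
      refine sub_mem h2 (sum_mem fun j _ => ?_)
      rw [pow_succ']
      exact Ideal.mul_mem_mul (h3 j) (ih2 j)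

theorem newton_sub_mem (I : Ideal R) (g : σ → MvPolynomial τ R) (a : τ → R) (W : τ → σ → R)
    (h0 : ∀ i, eval a (g i) ∈ I)
    (hW : ∀ i j, ∑ k, eval a (pderiv k (g i)) * W k j - (if i = j then 1 else 0) ∈ I) {m n : ℕ}
    (hmn : m ≤ n) (k : τ) : newton g a W m k - newton g a W n k ∈ I ^ m := by
  induction n, hmn using Nat.le_induction with
  | base => simp
  | succ n hmn ih =>
    have e : newton g a W m k - newton g a W (n + 1) k =
        (newton g a W m k - newton g a W n k) +
          ∑ i, W k i * eval (newton g a W n) (g i) := by
      simp only [newton]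
      ring
    rw [e]
    refine add_mem ih (sum_mem fun i _ => Ideal.mul_mem_left _ _ ?_)
    exact Ideal.pow_le_pow_right (by omega) ((newton_mem I g a W h0 hW n).2 i)

/-- **Hensel's lemma in several variables**, with fewer equations than variables allowed: the
Jacobian matrix at the approximate zero `a` has the right inverse `W` modulo `I`. -/
theorem hensel (I : Ideal R) [IsAdicComplete I R] (g : σ → MvPolynomial τ R) (a : τ → R)
    (W : τ → σ → R) (h0 : ∀ i, eval a (g i) ∈ I)
    (hW : ∀ i j, ∑ k, eval a (pderiv k (g i)) * W k j - (if i = j then 1 else 0) ∈ I) :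
    ∃ b : τ → R, (∀ k, b k - a k ∈ I) ∧ ∀ i, eval b (g i) = 0 := by
  have hpow : ∀ (n : ℕ) (x y : R), x ≡ y [SMOD (I ^ n • ⊤ : Submodule R R)] ↔ x - y ∈ I ^ n := by
    intro n x y
    rw [SModEq.sub_mem, smul_eq_mul, Ideal.mul_top]
  have hlim : ∀ k, ∃ L : R, ∀ n, newton g a W n k - L ∈ I ^ n := by
    intro k
    obtain ⟨L, hL⟩ := IsPrecomplete.prec (inferInstance : IsPrecomplete I R)
      (f := fun n => newton g a W n k)
      (fun {m n} hmn => (hpow m _ _).2 (newton_sub_mem I g a W h0 hW hmn k))
    exact ⟨L, fun n => (hpow n _ _).1 (hL n)⟩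
  choose b hb using hlim
  refine ⟨b, fun k => ?_, fun i => ?_⟩
  · have h1 := hb k 1
    rw [pow_one] at h1
    have h2 := (newton_mem I g a W h0 hW 1).1 k
    have e : b k - a k = (newton g a W 1 k - a k) - (newton g a W 1 k - b k) := by ring
    rw [e]
    exact I.sub_mem h2 h1
  · apply IsHausdorff.haus (inferInstance : IsHausdorff I R)
    intro n
    rw [hpow, sub_zero]
    have h1 := eval_sub_eval_mem (I ^ n) (g i) (newton g a W n) b (fun k => hb k n)
    have h2 := Ideal.pow_le_pow_right (Nat.le_succ n) ((newton_mem I g a W h0 hW n).2 i)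
    have e : eval b (g i) = eval (newton g a W n) (g i) -
        (eval (newton g a W n) (g i) - eval b (g i)) := by ring
    rw [e]
    exact sub_mem h2 h1

end Hensel

end Pool.Agent.Lib.MP_f80667_ag
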