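import Pool.Agent.Lib.MP_f80667_ag.Hens

/-! # A bound for the number of nonsingular zeros (helper22)

`card_nonsing_le`: over any field `F`, the number of nonsingular common zeros in `F ^ m` of `m`
polynomials in `m` variables of total degree at most `d` is bounded in terms of `m` and `d` only.
(A weak form of the theorem of Bezout, with a short proof: algebraic relations of bounded degree
between the polynomials and one coordinate, and Hensel's lemma over `F⟦t⟧`.) -/

set_option autoImplicit false

namespace Pool.Agent.Lib.MP_f80667_ag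

open MvPolynomial

section Complete

variable {F : Type*} [Field F]

theorem mem_span_X_pow (n : ℕ) (f : PowerSeries F) :
    f ∈ (Ideal.span {(PowerSeries.X : PowerSeries F)}) ^ n ↔ ∀ m < n, PowerSeries.coeff m f = 0 := by
  rw [Ideal.span_singleton_pow, Ideal.mem_span_singleton, PowerSeries.X_pow_dvd_iff]

/-- The ring of formal power series over a field is `t`-adically complete. -/
theorem adicComplete_powerSeries :
    IsAdicComplete (Ideal.span {(PowerSeries.X : PowerSeries F)}) (PowerSeries F) := by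
  have hpow : ∀ (n : ℕ) (x y : PowerSeries F),
      x ≡ y [SMOD ((Ideal.span {(PowerSeries.X : PowerSeries F)}) ^ n • ⊤ :
        Submodule (PowerSeries F) (PowerSeries F))] ↔
      ∀ m < n, PowerSeries.coeff m (x - y) = 0 := by
    intro n x y
    rw [SModEq.sub_mem, smul_eq_mul, Ideal.mul_top, mem_span_X_pow]
  refine { haus' := fun f hf => ?_, prec' := fun f hf => ?_ }
  · ext n
    have := (hpow (n + 1) _ _).1 (hf (n + 1)) n (Nat.lt_succ_self n)
    simpa using this
  · refine ⟨PowerSeries.mk fun n => PowerSeries.coeff n (f (n + 1)), fun n => ?_⟩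
    rw [hpow]
    intro m hm
    have := (hpow (m + 1) _ _).1 (hf (Nat.succ_le_of_lt hm)) m (Nat.lt_succ_self m)
    rw [map_sub] at this
    rw [map_sub, PowerSeries.coeff_mk, ← neg_sub, this, neg_zero]

end Complete

section Relation

variable {F : Type*} [Field F] {m : ℕ}

/-- the monomials in the polynomials `f` and one coordinate -/
noncomputable def mono (f : Fin m → MvPolynomial (Fin m) F) (j : Fin m) (B : ℕ)
    (ab : (Fin m → Fin (B + 1)) × Fin (B + 1)) : MvPolynomial (Fin m) F :=
  (∏ i, f i ^ (ab.1 i : ℕ)) * X j ^ (ab.2 : ℕ)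

theorem degreeOf_mono_le {d : ℕ} (f : Fin m → MvPolynomial (Fin m) F)
    (hd : ∀ i, (f i).totalDegree ≤ d) (j k : Fin m) (B : ℕ)
    (ab : (Fin m → Fin (B + 1)) × Fin (B + 1)) :
    (mono f j B ab).degreeOf k ≤ B * (m * d + 1) := by
  classical
  unfold mono
  have h1 : (∏ i, f i ^ (ab.1 i : ℕ)).degreeOf k ≤ m * (B * d) := by
    refine (degreeOf_prod_le k Finset.univ _).trans ?_
    refine (Finset.sum_le_card_nsmul Finset.univ _ (B * d) fun i _ => ?_).trans ?_
    · refine (degreeOf_pow_le k (f i) _).trans ?_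
      exact Nat.mul_le_mul (Nat.le_of_lt_succ (ab.1 i).2)
        ((degreeOf_le_totalDegree (f i) k).trans (hd i))
    · simp
  have h2 : ((X j : MvPolynomial (Fin m) F) ^ (ab.2 : ℕ)).degreeOf k ≤ B := by
    refine (degreeOf_pow_le k _ _).trans ?_
    have h3 : (X j : MvPolynomial (Fin m) F).degreeOf k ≤ 1 := by
      rw [degreeOf_X]
      split_ifs <;> simp
    calc (ab.2 : ℕ) * (X j : MvPolynomial (Fin m) F).degreeOf k ≤ B * 1 :=
          Nat.mul_le_mul (Nat.le_of_lt_succ ab.2.2) h3
      _ = B := mul_one B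
  refine (degreeOf_mul_le k _ _).trans ((Nat.add_le_add h1 h2).trans (le_of_eq ?_))
  ring

/-- An algebraic relation of bounded degree between the polynomials and one coordinate. -/
theorem exists_relation {d : ℕ} (f : Fin m → MvPolynomial (Fin m) F)
    (hd : ∀ i, (f i).totalDegree ≤ d) (j : Fin m) {B : ℕ} (hB : B = (m * d + 1) ^ m) :
    ∃ c : (Fin m → Fin (B + 1)) × Fin (B + 1) → F, c ≠ 0 ∧ ∑ ab, c ab • mono f j B ab = 0 := by
  classical
  obtain ⟨N, hN⟩ : ∃ N, N = B * (m * d + 1) := ⟨_, rfl⟩
  let G : ((Fin m → Fin (B + 1)) × Fin (B + 1) → F) →ₗ[F] MvPolynomial (Fin m) F :=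
    Fintype.linearCombination F (mono f j B)
  let T : ((Fin m → Fin (B + 1)) × Fin (B + 1) → F) →ₗ[F] ((Fin m → Fin (N + 1)) → F) :=
    LinearMap.pi fun e =>
      (MvPolynomial.lcoeff F (Finsupp.equivFunOnFinite.symm fun i => (e i : ℕ))).comp G
  have hdim : Module.finrank F ((Fin m → Fin (N + 1)) → F) <
      Module.finrank F ((Fin m → Fin (B + 1)) × Fin (B + 1) → F) := by
    rw [Module.finrank_fintype_fun_eq_card, Module.finrank_fintype_fun_eq_card]
    simp only [Fintype.card_pi, Fintype.card_fin, Finset.prod_const, Finset.card_univ,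
      Fintype.card_prod]
    have h1 : N + 1 ≤ (B + 1) * (m * d + 1) := by
      rw [hN]
      nlinarith
    calc (N + 1) ^ m ≤ ((B + 1) * (m * d + 1)) ^ m := Nat.pow_le_pow_left h1 m
      _ = (B + 1) ^ m * B := by rw [mul_pow, ← hB]
      _ < (B + 1) ^ m * (B + 1) := by
          apply Nat.mul_lt_mul_of_pos_left (Nat.lt_succ_self B)
          positivity
  obtain ⟨c, hc, hc0⟩ := (Submodule.ne_bot_iff _).1 (LinearMap.ker_ne_bot_of_finrank_lt (f := T) hdim)
  refine ⟨c, hc0, ?_⟩
  have hG : G c = ∑ ab, c ab • mono f j B ab := by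
    simp only [G, Fintype.linearCombination_apply]
  rw [← hG]
  ext s
  rw [coeff_zero]
  by_cases hs : ∀ i, s i ≤ N
  · have h1 := congrFun (LinearMap.mem_ker.1 hc) (fun i => ⟨s i, Nat.lt_succ_of_le (hs i)⟩)
    have h2 : (Finsupp.equivFunOnFinite.symm fun i => s i : Fin m →₀ ℕ) = s := by
      ext i
      simp
    simp only [T, LinearMap.pi_apply, LinearMap.comp_apply, lcoeff_apply, Pi.zero_apply] at h1
    rwa [h2] at h1
  · obtain ⟨k, hk⟩ := not_forall.1 hs
    by_contra h
    have h1 : s ∈ (G c).support := mem_support_iff.2 h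
    have h2 := monomial_le_degreeOf k h1
    have h3 : (G c).degreeOf k ≤ N := by
      rw [hG]
      refine (degreeOf_sum_le k _ _).trans (Finset.sup_le fun ab _ => ?_)
      rw [smul_eq_C_mul]
      refine (degreeOf_C_mul_le _ k _).trans ?_
      rw [hN]
      exact degreeOf_mono_le f hd j k B ab
    omega

end Relation

section Count

variable {F : Type*} [Field F] {m : ℕ}

/-- The nonsingular zero `P` of `f` is deformed to a point of `f = (t ^ (e 0), t ^ (e 1), ...)`. -/
theorem exists_deform (f : Fin m → MvPolynomial (Fin m) F) (e : Fin m → ℕ) (he : ∀ i, 1 ≤ e i)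
    (P : Fin m → F) (hP : ∀ i, eval P (f i) = 0)
    (hJ : (Matrix.of fun i j => eval P (pderiv j (f i))).det ≠ 0) :
    ∃ x : Fin m → PowerSeries F, (∀ j, PowerSeries.constantCoeff (x j) = P j) ∧
      ∀ i, aeval x (f i) = PowerSeries.X ^ e i := by
  classical
  have hac : IsAdicComplete (Ideal.span {(PowerSeries.X : PowerSeries F)}) (PowerSeries F) :=
    adicComplete_powerSeries
  obtain ⟨J, hJd⟩ : ∃ J : Matrix (Fin m) (Fin m) F,
      J = Matrix.of fun i j => eval P (pderiv j (f i)) := ⟨_, rfl⟩
  have hu : IsUnit J.det := by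
    rw [hJd]
    exact isUnit_iff_ne_zero.2 hJ
  let g : Fin m → MvPolynomial (Fin m) (PowerSeries F) := fun i =>
    map (PowerSeries.C (R := F)) (f i) - C (PowerSeries.X ^ e i)
  let a : Fin m → PowerSeries F := fun j => PowerSeries.C (P j)
  have ha : ∀ p : MvPolynomial (Fin m) F,
      eval a (map (PowerSeries.C (R := F)) p) = PowerSeries.C (eval P p) := by
    intro p
    rw [eval_map]
    have := eval₂_comp_left (PowerSeries.C (R := F)) (RingHom.id F) P p
    simpa [eval₂_id, Function.comp_def, a] using this.symm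
  have h0 : ∀ i, eval a (g i) ∈ Ideal.span {(PowerSeries.X : PowerSeries F)} := by
    intro i
    have h1 : eval a (g i) = -(PowerSeries.X ^ e i) := by
      simp only [g, map_sub, ha, eval_C, hP i, map_zero, zero_sub]
    rw [h1]
    apply Ideal.neg_mem_iff _ |>.2
    apply Ideal.pow_mem_of_mem _ _ _ (he i)
    exact Ideal.mem_span_singleton_self _
  have hd : ∀ i k, eval a (pderiv k (g i)) = PowerSeries.C (J i k) := by
    intro i k
    simp only [g, map_sub, pderiv_C, sub_zero, pderiv_map, ha, hJd, Matrix.of_apply]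
  obtain ⟨b, hb1, hb2⟩ := hensel (Ideal.span {(PowerSeries.X : PowerSeries F)}) g a
    (fun k j => PowerSeries.C (J⁻¹ k j)) h0 (by
      intro i j
      have h1 : ∑ k, eval a (pderiv k (g i)) * PowerSeries.C (J⁻¹ k j) =
          PowerSeries.C ((J * J⁻¹) i j) := by
        rw [Matrix.mul_apply, map_sum]
        exact Finset.sum_congr rfl fun k _ => by rw [hd, map_mul]
      rw [h1, Matrix.mul_nonsing_inv J hu, Matrix.one_apply]
      have h2 : (PowerSeries.C (R := F)) (if i = j then (1 : F) else 0) -
          (if i = j then 1 else 0) = 0 := by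
        split_ifs <;> simp
      rw [h2]
      exact Ideal.zero_mem _)
  refine ⟨b, fun j => ?_, fun i => ?_⟩
  · have h1 := (mem_span_X_pow 1 (b j - a j)).1 (by rw [pow_one]; exact hb1 j) 0 Nat.one_pos
    rw [map_sub, PowerSeries.coeff_zero_eq_constantCoeff_apply,
      PowerSeries.coeff_zero_eq_constantCoeff_apply, PowerSeries.constantCoeff_C, sub_eq_zero] at h1
    exact h1
  · have h1 := hb2 i
    simp only [g, map_sub, eval_C, sub_eq_zero] at h1
    rw [← h1, eval_map, aeval_def]
    rfl

/-- The number of values of a coordinate on the nonsingular zeros. -/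
theorem card_image_le {d : ℕ} (f : Fin m → MvPolynomial (Fin m) F)
    (hd : ∀ i, (f i).totalDegree ≤ d) (j : Fin m) (V : Finset F)
    (hV : ∀ v ∈ V, ∃ P : Fin m → F, P j = v ∧ (∀ i, eval P (f i) = 0) ∧
      (Matrix.of fun i j => eval P (pderiv j (f i))).det ≠ 0) :
    V.card ≤ (m * d + 1) ^ m := by
  classical
  obtain ⟨B, hB⟩ : ∃ B, B = (m * d + 1) ^ m := ⟨_, rfl⟩
  obtain ⟨c, hc0, hc⟩ := exists_relation f hd j hB
  rw [← hB]
  obtain ⟨ab0, hab0⟩ := Function.ne_iff.1 hc0
  -- the exponent of the Kronecker substitution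
  let w : (Fin m → Fin (B + 1)) → ℕ := fun a => ∑ i, (a i : ℕ) * (B + 1) ^ (i : ℕ)
  have hw : Function.Injective w := by
    intro a a' h
    apply finFunctionFinEquiv.injective
    apply Fin.ext
    rw [finFunctionFinEquiv_apply, finFunctionFinEquiv_apply]
    exact h
  let q : Fin (B + 1) → PowerSeries F := fun b => ∑ a, PowerSeries.C (c (a, b)) * PowerSeries.X ^ w a
  have hq : ∀ b a, PowerSeries.coeff (w a) (q b) = c (a, b) := by
    intro b a
    simp only [q, map_sum, PowerSeries.coeff_C_mul, PowerSeries.coeff_X_pow]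
    rw [Finset.sum_eq_single a]
    · simp
    · intro a' _ hne
      rw [if_neg (fun h => hne (hw h.symm)), mul_zero]
    · intro h
      exact absurd (Finset.mem_univ a) h
  let Ψ : Polynomial (PowerSeries F) := ∑ b : Fin (B + 1), Polynomial.C (q b) * Polynomial.X ^ (b : ℕ)
  have hΨc : ∀ b : Fin (B + 1), Ψ.coeff b = q b := by
    intro b
    simp only [Ψ, Polynomial.finsetSum_coeff, Polynomial.coeff_C_mul, Polynomial.coeff_X_pow]
    rw [Finset.sum_eq_single b]
    · simp
    · intro b' _ hne
      rw [if_neg (fun h => hne (Fin.ext h.symm)), mul_zero]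
    · intro h
      exact absurd (Finset.mem_univ b) h
  have hΨ0 : Ψ ≠ 0 := by
    intro h
    apply hab0
    have h1 := hΨc ab0.2
    rw [h, Polynomial.coeff_zero] at h1
    have h2 := hq ab0.2 ab0.1
    rw [← h1, map_zero] at h2
    exact h2.symm
  have hΨd : Ψ.natDegree ≤ B := by
    refine Polynomial.natDegree_sum_le_of_forall_le _ _ fun b _ => ?_
    exact (Polynomial.natDegree_C_mul_X_pow_le _ _).trans (Nat.le_of_lt_succ b.2)
  choose! P hPv hP0 hPJ using hV
  have hex : ∀ v ∈ V, ∃ x : Fin m → PowerSeries F,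
      (∀ j, PowerSeries.constantCoeff (x j) = P v j) ∧
      ∀ i, aeval x (f i) = PowerSeries.X ^ ((B + 1) ^ (i : ℕ)) := fun v hv =>
    exists_deform f (fun i => (B + 1) ^ (i : ℕ)) (fun i => Nat.one_le_pow _ _ (Nat.succ_pos B))
      (P v) (hP0 v hv) (hPJ v hv)
  choose! x hx1 hx2 using hex
  have hroot : ∀ v ∈ V, Ψ.eval (x v j) = 0 := by
    intro v hv
    have h1 := congrArg (aeval (x v)) hc
    rw [map_zero, map_sum] at h1
    rw [Fintype.sum_prod_type_right] at h1
    simp only [Ψ, Polynomial.eval_finsetSum, Polynomial.eval_mul, Polynomial.eval_C,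
      Polynomial.eval_pow, Polynomial.eval_X]
    rw [← h1]
    refine Finset.sum_congr rfl fun b _ => ?_
    simp only [q, Finset.sum_mul]
    refine Finset.sum_congr rfl fun a _ => ?_
    simp only [mono, map_smul, map_mul, map_prod, map_pow, hx2 v hv, aeval_X]
    rw [Algebra.smul_def, PowerSeries.algebraMap_apply, Algebra.algebraMap_self_apply]
    have h2 : ∏ i : Fin m, (PowerSeries.X ^ (B + 1) ^ (i : ℕ)) ^ (a i : ℕ) =
        (PowerSeries.X : PowerSeries F) ^ w a := by
      simp only [w]
      rw [← Finset.prod_pow_eq_pow_sum]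
      refine Finset.prod_congr rfl fun i _ => ?_
      rw [← pow_mul, mul_comm]
    rw [h2, mul_assoc]
  have hinj : Set.InjOn (fun v => x v j) V := by
    intro v hv v' hv' h
    have h1 := congrArg PowerSeries.constantCoeff h
    simp only at h1
    rw [hx1 v hv j, hx1 v' hv' j, hPv v hv, hPv v' hv'] at h1
    exact h1
  calc V.card = (V.image fun v => x v j).card := (Finset.card_image_of_injOn hinj).symm
    _ ≤ Ψ.roots.toFinset.card := by
        apply Finset.card_le_card
        intro y hy
        obtain ⟨v, hv, rfl⟩ := Finset.mem_image.1 hy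
        rw [Multiset.mem_toFinset, Polynomial.mem_roots hΨ0]
        exact hroot v hv
    _ ≤ Multiset.card Ψ.roots := Multiset.toFinset_card_le _
    _ ≤ Ψ.natDegree := Polynomial.card_roots' Ψ
    _ ≤ B := hΨd

/-- **Bound for the number of nonsingular zeros**: it depends on the number of variables and on
the degree only, not on the field. -/
theorem card_nonsing_le {d : ℕ} (f : Fin m → MvPolynomial (Fin m) F)
    (hd : ∀ i, (f i).totalDegree ≤ d) (S : Finset (Fin m → F))
    (hS : ∀ P ∈ S, (∀ i, eval P (f i) = 0) ∧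
      (Matrix.of fun i j => eval P (pderiv j (f i))).det ≠ 0) :
    S.card ≤ ((m * d + 1) ^ m) ^ m := by
  classical
  have h1 : S ⊆ Fintype.piFinset fun j => S.image fun P => P j := by
    intro P hP
    rw [Fintype.mem_piFinset]
    exact fun j => Finset.mem_image_of_mem _ hP
  refine (Finset.card_le_card h1).trans ?_
  rw [Fintype.card_piFinset]
  refine (Finset.prod_le_pow_card Finset.univ _ ((m * d + 1) ^ m) fun j _ => ?_).trans ?_
  · refine card_image_le f hd j _ fun v hv => ?_
    obtain ⟨P, hP, rfl⟩ := Finset.mem_image.1 hv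
    exact ⟨P, rfl, hS P hP⟩
  · simp

end Count

end Pool.Agent.Lib.MP_f80667_ag
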