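import Mathlib

/-!
# Linear families of quadratic forms: radicals and defect spaces

`Q : (Fin r → F) →ₗ[F] QuadraticForm F V` is a linear family of quadratic forms (the forms may be
dependent). `rad q` is the radical of the polar form of `q`, `defQ Q ν` the space of the
parameters `k` with `Q k = 0` on the radical of `Q ν`, and `defB Q μ` the space of the parameters
`k` for which the polar form of `Q k` vanishes on the radical of `Q μ`. Every characteristic.
-/

namespace MP_f80667_ag.Frm

open QuadraticMap Module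

variable {F : Type*} [Field F] {V : Type*} [AddCommGroup V] [Module F V] {r n : ℕ}

/-- The radical of the polar form of a quadratic form. -/
def rad (q : QuadraticForm F V) : Submodule F V where
  carrier := {x | ∀ y, polar q x y = 0}
  zero_mem' := fun y => by simp
  add_mem' := fun {a b} ha hb y => by
    rw [polar_add_left, ha y, hb y, add_zero]
  smul_mem' := fun c x hx y => by
    rw [polar_smul_left, hx y, smul_zero]

theorem mem_rad {q : QuadraticForm F V} {x : V} : x ∈ rad q ↔ ∀ y, polar q x y = 0 := Iff.rfl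

/-- The parameters `k` with `Q k = 0` on the radical of `Q ν`. -/
def defQ (Q : (Fin r → F) →ₗ[F] QuadraticForm F V) (ν : Fin r → F) :
    Submodule F (Fin r → F) where
  carrier := {k | ∀ x ∈ rad (Q ν), Q k x = 0}
  zero_mem' := fun x _ => by simp
  add_mem' := fun {a b} ha hb x hx => by
    rw [map_add, add_apply, ha x hx, hb x hx, add_zero]
  smul_mem' := fun c k hk x hx => by
    rw [map_smul, smul_apply, hk x hx, smul_zero]

theorem mem_defQ {Q : (Fin r → F) →ₗ[F] QuadraticForm F V} {ν k : Fin r → F} :
    k ∈ defQ Q ν ↔ ∀ x ∈ rad (Q ν), Q k x = 0 := Iff.rfl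

theorem polar_add_map (Q : (Fin r → F) →ₗ[F] QuadraticForm F V) (a b : Fin r → F) (x y : V) :
    polar (Q (a + b)) x y = polar (Q a) x y + polar (Q b) x y := by
  simp only [polar, map_add, add_apply]; ring

theorem polar_smul_map (Q : (Fin r → F) →ₗ[F] QuadraticForm F V) (c : F) (a : Fin r → F)
    (x y : V) : polar (Q (c • a)) x y = c * polar (Q a) x y := by
  simp only [polar, map_smul, smul_apply, smul_eq_mul]; ring

/-- The parameters `k` for which the polar form of `Q k` vanishes on the radical of `Q μ`. -/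
def defB (Q : (Fin r → F) →ₗ[F] QuadraticForm F V) (μ : Fin r → F) :
    Submodule F (Fin r → F) where
  carrier := {k | ∀ x ∈ rad (Q μ), ∀ y ∈ rad (Q μ), polar (Q k) x y = 0}
  zero_mem' := fun x _ y _ => by simp [polar]
  add_mem' := fun {a b} ha hb x hx y hy => by
    rw [polar_add_map, ha x hx y hy, hb x hx y hy, add_zero]
  smul_mem' := fun c k hk x hx y hy => by
    rw [polar_smul_map, hk x hx y hy, mul_zero]

theorem mem_defB {Q : (Fin r → F) →ₗ[F] QuadraticForm F V} {μ k : Fin r → F} :
    k ∈ defB Q μ ↔ ∀ x ∈ rad (Q μ), ∀ y ∈ rad (Q μ), polar (Q k) x y = 0 := Iff.rfl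

theorem self_mem_defB (Q : (Fin r → F) →ₗ[F] QuadraticForm F V) (μ : Fin r → F) :
    μ ∈ defB Q μ := fun _ hx y _ => hx y

/-- The restriction of a family to a subspace. -/
def restr (Q : (Fin r → F) →ₗ[F] QuadraticForm F V) (U : Submodule F V) :
    (Fin r → F) →ₗ[F] QuadraticForm F U where
  toFun := fun k => (Q k).comp U.subtype
  map_add' := fun a b => by ext x; simp
  map_smul' := fun c a => by ext x; simp

@[simp] theorem restr_apply (Q : (Fin r → F) →ₗ[F] QuadraticForm F V) (U : Submodule F V)
    (k : Fin r → F) (x : U) : restr Q U k x = Q k (x : V) := rfl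

/-- The family of quadratic forms `x ↦ x · (A_ν x)` of a family of square matrices. -/
def ofMat (A : Fin r → Matrix (Fin n) (Fin n) F) :
    (Fin r → F) →ₗ[F] QuadraticForm F (Fin n → F) :=
  Fintype.linearCombination F (fun k => (A k).toQuadraticForm')

theorem ofMat_apply (A : Fin r → Matrix (Fin n) (Fin n) F) (ν : Fin r → F) (x : Fin n → F) :
    ofMat A ν x = x ⬝ᵥ ((∑ k, ν k • A k).mulVec x) := by
  have h : ∀ M : Matrix (Fin n) (Fin n) F, M.toQuadraticForm' x = x ⬝ᵥ (M.mulVec x) := by
    intro M
    rw [Matrix.toQuadraticForm', LinearMap.BilinMap.toQuadraticMap_apply,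
      Matrix.toLinearMap₂'_apply']
  simp only [ofMat, Fintype.linearCombination_apply, sum_apply,
    smul_apply, h, Matrix.sum_mulVec, Matrix.smul_mulVec, dotProduct_sum,
    dotProduct_smul]

theorem ofMat_single (A : Fin r → Matrix (Fin n) (Fin n) F) (k : Fin r) (x : Fin n → F) :
    ofMat A (Pi.single k 1) x = x ⬝ᵥ ((A k).mulVec x) := by
  rw [ofMat_apply]
  congr 2
  rw [Finset.sum_eq_single k]
  · simp
  · intro j _ hj; simp [hj]
  · simp

theorem polar_ofMat (A : Fin r → Matrix (Fin n) (Fin n) F) (ν : Fin r → F) (x y : Fin n → F) :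
    polar (ofMat A ν) x y =
      x ⬝ᵥ (((∑ k, ν k • A k) + (∑ k, ν k • A k).transpose).mulVec y) := by
  simp only [polar, ofMat_apply, Matrix.mulVec_add, Matrix.add_mulVec, dotProduct_add,
    add_dotProduct]
  have h : x ⬝ᵥ ((∑ k, ν k • A k).transpose.mulVec y) = y ⬝ᵥ ((∑ k, ν k • A k).mulVec x) := by
    rw [Matrix.mulVec_transpose, dotProduct_comm, ← Matrix.dotProduct_mulVec]
  rw [h]; ring

end MP_f80667_ag.Frm
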