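import Mathlib
import Pool.Agent.Lib.MP_f80667_ag.Frm

/-!
# Gauss sums of quadratic forms over finite fields, all characteristics

For a quadratic form `Q` on a finite vector space `V` over a finite field `F` and a nontrivial
additive character `ψ` of `F` the sum `S = ∑ x, ψ (Q x)` satisfies `|S|² = |V| |Rad|` if `Q`
vanishes on the radical `Rad` of its polar form, and `S = 0` otherwise.
-/

namespace MP_f80667_ag.Gau

open QuadraticMap Module MP_f80667_ag.Frm

section

variable {F : Type*} [Field F] {V : Type*} [AddCommGroup V] [Module F V]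
  {ψ : AddChar F ℂ}

/-- A nontrivial additive character exists. -/
theorem exists_char (F : Type*) [Field F] [Finite F] : ∃ ψ : AddChar F ℂ, ψ ≠ 1 := by
  obtain ⟨ψ, hψ⟩ := (AddChar.exists_apply_ne_zero (α := F) (a := 1)).2 one_ne_zero
  refine ⟨ψ, ?_⟩
  rintro rfl
  exact hψ rfl

/-- Orthogonality for a linear functional. -/
theorem sum_linear (hψ : ψ ≠ 1) {W : Type*} [AddCommGroup W] [Module F W]
    [Fintype W] (L : W →ₗ[F] F) [Decidable (L = 0)] :
    ∑ w, ψ (L w) = if L = 0 then (Fintype.card W : ℂ) else 0 := by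
  classical
  let χ : AddChar W ℂ := ψ.compAddMonoidHom L.toAddMonoidHom
  have hχ : ∀ w, χ w = ψ (L w) := fun w => rfl
  have h1 : ∑ w, ψ (L w) = ∑ w, χ w := rfl
  rw [h1, AddChar.sum_eq_ite]
  have hiff : χ = 0 ↔ L = 0 := by
    constructor
    · intro h
      by_contra hL
      apply hψ
      ext a
      obtain ⟨w, hw⟩ : ∃ w, L w = a := by
        have := LinearMap.surjective hL
        exact this a
      have : χ w = 1 := by rw [h]; rfl
      rw [← hw, ← hχ, this]
      rfl
    · intro h
      ext w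
      rw [hχ, h]
      simp
  by_cases hL : L = 0
  · rw [if_pos hL, if_pos (hiff.2 hL)]
  · rw [if_neg hL, if_neg (fun h => hL (hiff.1 h))]

theorem map_add_rad (Q : QuadraticForm F V) {x : V} (hx : x ∈ rad Q) (y : V) :
    Q (x + y) = Q x + Q y := by
  have := hx y
  unfold polar at this
  linear_combination this

/-- In odd characteristic a quadratic form vanishes on the radical of its polar form. -/
theorem zero_on_rad_of_two (Q : QuadraticForm F V) (h2 : (2 : F) ≠ 0) {x : V} (hx : x ∈ rad Q) :
    Q x = 0 := by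
  have h := hx x
  rw [QuadraticMap.polar_self] at h
  have h' : (2 : F) * Q x = 0 := by
    have : (2 : ℕ) • Q x = (2 : F) * Q x := by
      rw [nsmul_eq_mul]; norm_num
    rw [← this]
    simpa using h
  exact (mul_eq_zero.1 h').resolve_left h2

/-- The square of the absolute value of a Gauss sum. -/
theorem normSq_sum [Fintype V] (hψ : ψ ≠ 1) [Finite F] (Q : QuadraticForm F V)
    [DecidablePred (· ∈ rad Q)] :
    (∑ x, ψ (Q x)) * (starRingEnd ℂ) (∑ x, ψ (Q x)) =
      (Fintype.card V : ℂ) * ∑ x : rad Q, ψ (Q x) := by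
  classical
  have : Fintype F := Fintype.ofFinite F
  calc (∑ x, ψ (Q x)) * (starRingEnd ℂ) (∑ x, ψ (Q x))
      = ∑ y, ∑ x, ψ (Q x) * (starRingEnd ℂ) (ψ (Q y)) := by
        rw [map_sum, Finset.sum_mul_sum, Finset.sum_comm]
    _ = ∑ y, ∑ x, ψ (Q x) * ψ (polar Q x y) := by
        refine Finset.sum_congr rfl fun y _ => ?_
        rw [← Equiv.sum_comp (Equiv.addRight y)
          (fun x => ψ (Q x) * (starRingEnd ℂ) (ψ (Q y)))]
        refine Finset.sum_congr rfl fun x _ => ?_
        rw [← AddChar.map_neg_eq_conj, ← AddChar.map_add_eq_mul, ← AddChar.map_add_eq_mul]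
        congr 1
        simp only [Equiv.coe_addRight, polar]
        ring
    _ = ∑ x, ψ (Q x) * ∑ y, ψ (polar Q x y) := by
        rw [Finset.sum_comm]
        refine Finset.sum_congr rfl fun x _ => ?_
        rw [Finset.mul_sum]
    _ = ∑ x, if x ∈ rad Q then ψ (Q x) * (Fintype.card V : ℂ) else 0 := by
        refine Finset.sum_congr rfl fun x _ => ?_
        have h := sum_linear hψ (Q.polarBilin x)
        simp only [QuadraticMap.polarBilin_apply_apply] at h
        rw [h]
        have hiff : (Q.polarBilin x = 0) ↔ x ∈ rad Q := by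
          rw [LinearMap.ext_iff]
          rfl
        by_cases hx : x ∈ rad Q
        · rw [if_pos hx, if_pos (hiff.2 hx)]
        · rw [if_neg hx, if_neg (fun h => hx (hiff.1 h)), mul_zero]
    _ = (Fintype.card V : ℂ) * ∑ x : rad Q, ψ (Q x) := by
        rw [← Finset.sum_filter, ← Finset.sum_mul, mul_comm]
        congr 1
        exact Finset.sum_subtype (Finset.univ.filter (· ∈ rad Q)) (by simp) (fun x => ψ (Q x))

/-- The Gauss sum when the form vanishes on the radical. -/
theorem gau_sq [Fintype V] [Finite F] (hψ : ψ ≠ 1) (Q : QuadraticForm F V)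
    (h : ∀ x ∈ rad Q, Q x = 0) :
    ‖∑ x, ψ (Q x)‖ ^ 2 = (Nat.card V : ℝ) * Nat.card (rad Q) := by
  classical
  have h1 := normSq_sum hψ Q
  have h2 : ∑ x : rad Q, ψ (Q x) = (Fintype.card (rad Q) : ℂ) := by
    rw [Finset.sum_congr rfl (g := fun _ => (1 : ℂ))]
    · simp
    · intro x _
      rw [h x x.2]
      simp
  rw [h2, Complex.mul_conj, Complex.normSq_eq_norm_sq] at h1
  have h3 : ((‖∑ x, ψ (Q x)‖ ^ 2 : ℝ) : ℂ) =
      (((Fintype.card V : ℝ) * (Fintype.card (rad Q) : ℝ) : ℝ) : ℂ) := by
    rw [h1]; push_cast; ring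
  rw [Nat.card_eq_fintype_card, Nat.card_eq_fintype_card]
  exact_mod_cast h3

/-- The Gauss sum is zero when the form does not vanish on the radical. -/
theorem gau_zero [Fintype V] [Finite F] (hψ : ψ ≠ 1) (Q : QuadraticForm F V)
    (h : ∃ x ∈ rad Q, Q x ≠ 0) : ∑ x, ψ (Q x) = 0 := by
  classical
  have : Fintype F := Fintype.ofFinite F
  have h1 := normSq_sum hψ Q
  obtain ⟨x, hx, hQx⟩ := h
  -- the characteristic is two and every element is a square
  have h2 : (2 : F) = 0 := by
    by_contra h2
    exact hQx (zero_on_rad_of_two Q h2 hx)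
  have hchar : ringChar F = 2 := by
    have : CharP F 2 := CharTwo.of_one_ne_zero_of_two_eq_zero one_ne_zero h2
    exact ringChar.eq F 2
  have hsq : ∀ a : F, IsSquare a := fun a => FiniteField.isSquare_of_char_two hchar a
  -- the additive character of the radical
  let χ : AddChar (rad Q) ℂ :=
    { toFun := fun x => ψ (Q x)
      map_zero_eq_one' := by simp
      map_add_eq_mul' := by
        intro a b
        change ψ (Q ((a : V) + (b : V))) = _
        rw [map_add_rad Q a.2, AddChar.map_add_eq_mul] }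
  have hχ : χ ≠ 0 := by
    intro h0
    apply hψ
    ext a
    obtain ⟨c, hc⟩ := hsq (a * (Q x)⁻¹)
    have h3 : Q (c • x) = a := by
      rw [QuadraticMap.map_smul, ← hc, smul_eq_mul, mul_assoc, inv_mul_cancel₀ hQx, mul_one]
    have h4 : χ ⟨c • x, (rad Q).smul_mem c hx⟩ = 1 := by rw [h0]; rfl
    have h5 : ψ (Q (c • x)) = 1 := h4
    rw [h3] at h5
    rw [h5]
    rfl
  have h2 : ∑ x : rad Q, ψ (Q x) = 0 := by
    have := AddChar.sum_eq_ite χ
    rw [if_neg hχ] at this
    exact this
  rw [h2, mul_zero, Complex.mul_conj] at h1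
  have h3 : Complex.normSq (∑ x, ψ (Q x)) = 0 := by exact_mod_cast h1
  exact Complex.normSq_eq_zero.1 h3

/-- The absolute value of a Gauss sum is at most the root of `|V| |Rad|`. -/
theorem gau_le [Fintype V] [Finite F] (hψ : ψ ≠ 1) (Q : QuadraticForm F V) :
    ‖∑ x, ψ (Q x)‖ ^ 2 ≤ (Nat.card V : ℝ) * Nat.card (rad Q) := by
  by_cases h : ∀ x ∈ rad Q, Q x = 0
  · exact (gau_sq hψ Q h).le
  · push Not at h
    rw [gau_zero hψ Q h]
    simp only [norm_zero, ne_eq, OfNat.ofNat_ne_zero, not_false_eq_true, zero_pow]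
    positivity

/-- The number of common zeros of a linear family of quadratic forms, parametrized by any finite
vector space, as a character sum. -/
theorem count_eq' [Fintype V] (hψ : ψ ≠ 1) {W : Type*} [AddCommGroup W] [Module F W] [Fintype W]
    (Q : W →ₗ[F] QuadraticForm F V) :
    (Nat.card W : ℂ) * Nat.card {x : V // ∀ ν, Q ν x = 0} = ∑ ν, ∑ x, ψ (Q ν x) := by
  classical
  rw [Finset.sum_comm]
  have h1 : ∀ x : V, ∑ ν, ψ (Q ν x) =
      if (∀ ν, Q ν x = 0) then (Nat.card W : ℂ) else 0 := by
    intro x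
    let L : W →ₗ[F] F :=
      { toFun := fun ν => Q ν x
        map_add' := by intro a b; rw [map_add]; rfl
        map_smul' := by intro a b; rw [map_smul]; rfl }
    have h := sum_linear hψ L
    have hiff : L = 0 ↔ ∀ ν, Q ν x = 0 := by
      rw [LinearMap.ext_iff]
      rfl
    have hc : (Fintype.card W : ℂ) = (Nat.card W : ℂ) := by
      rw [Nat.card_eq_fintype_card]
    by_cases hL : L = 0
    · rw [if_pos (hiff.1 hL)]
      rw [if_pos hL, hc] at h
      exact h
    · rw [if_neg (fun h' => hL (hiff.2 h'))]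
      rw [if_neg hL] at h
      exact h
  rw [Finset.sum_congr rfl fun x _ => h1 x, ← Finset.sum_filter, Finset.sum_const,
    Nat.card_eq_fintype_card (α := {x : V // ∀ ν, Q ν x = 0}), Fintype.card_subtype,
    nsmul_eq_mul, mul_comm]

/-- The number of common zeros of a linear family of quadratic forms as a character sum. -/
theorem count_eq [Fintype V] [Fintype F] (hψ : ψ ≠ 1) {r : ℕ}
    (Q : (Fin r → F) →ₗ[F] QuadraticForm F V) :
    ((Nat.card F : ℂ)) ^ r * Nat.card {x : V // ∀ ν, Q ν x = 0} = ∑ ν, ∑ x, ψ (Q ν x) := by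
  rw [← count_eq' hψ Q, Nat.card_fun, Nat.card_fin]
  push_cast
  rfl

end

end MP_f80667_ag.Gau
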