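import Mathlib
import Pool.Agent.Lib.MP_f80667_ag.Frm
import Pool.Agent.Lib.MP_f80667_ag.Gau

/-!
# Nonsingular common zeros over a large finite field: the two inequalities

The Gauss sums of the family, the number of common zeros, the singular zeros.
-/

namespace MP_f80667_ag.Gs

open QuadraticMap Module MP_f80667_ag.Frm

universe u

section sums

variable {F : Type u} [Field F] [Fintype F]

/-- Weighted count: classes of size at most `C q^d` with weight `q^(-d)`. -/
theorem sum_weight_le {r C : ℕ} (P : (Fin r → F) → Prop) [DecidablePred P]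
    (f : (Fin r → F) → ℕ) (hf : ∀ ν, f ν ≤ r)
    (hC : ∀ d, Nat.card {ν : Fin r → F // P ν ∧ f ν = d} ≤ C * Nat.card F ^ d) :
    ∑ ν ∈ Finset.univ.filter P, ((Nat.card F : ℝ) ^ f ν)⁻¹ ≤ (r + 1) * C := by
  classical
  have hq : (0 : ℝ) < Nat.card F := by exact_mod_cast Nat.card_pos
  rw [← Finset.sum_fiberwise_of_maps_to (s := Finset.univ.filter P) (t := Finset.range (r + 1))
    (g := f) (fun ν _ => Finset.mem_range.mpr (Nat.lt_succ_of_le (hf ν)))]
  calc _ ≤ ∑ d ∈ Finset.range (r + 1), (C : ℝ) := by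
        refine Finset.sum_le_sum fun d _ => ?_
        rw [Finset.sum_congr rfl (g := fun _ => ((Nat.card F : ℝ) ^ d)⁻¹)
          (fun ν hν => by rw [(Finset.mem_filter.mp hν).2])]
        rw [Finset.sum_const, nsmul_eq_mul]
        have h1 : ((Finset.univ.filter P).filter (fun ν => f ν = d)).card =
            Nat.card {ν : Fin r → F // P ν ∧ f ν = d} := by
          rw [Finset.filter_filter, Nat.card_eq_fintype_card, Fintype.card_subtype]
        rw [h1]
        have h2 : (Nat.card {ν : Fin r → F // P ν ∧ f ν = d} : ℝ) ≤ C * (Nat.card F : ℝ) ^ d := by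
          exact_mod_cast hC d
        calc _ ≤ C * (Nat.card F : ℝ) ^ d * ((Nat.card F : ℝ) ^ d)⁻¹ := by gcongr
          _ = C := by field_simp
    _ = (r + 1) * C := by simp

end sums

section gauss

variable {F : Type u} [Field F] [Finite F] {V : Type u} [AddCommGroup V] [Module F V]
  [FiniteDimensional F V] {r : ℕ}

/-- `q` vanishes on the radical of its polar form. -/
def NonDef (q : QuadraticForm F V) : Prop := ∀ x ∈ rad q, q x = 0

theorem norm_le [Fintype V] {ψ : AddChar F ℂ} (hψ : ψ ≠ 1) {q : QuadraticForm F V}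
    (h : NonDef q) :
    ‖∑ x, ψ (q x)‖ ≤ √(Nat.card F : ℝ) ^ (finrank F V + finrank F (rad q)) := by
  have h1 := Gau.gau_sq hψ q h
  rw [Module.natCard_eq_pow_finrank (K := F) (V := V),
    Module.natCard_eq_pow_finrank (K := F) (V := rad q)] at h1
  have h2 : (√(Nat.card F : ℝ) ^ (finrank F V + finrank F (rad q))) ^ 2 =
      ((Nat.card F ^ finrank F V : ℕ) : ℝ) * ((Nat.card F ^ finrank F (rad q) : ℕ) : ℝ) := by
    rw [← pow_mul, mul_comm _ 2, pow_mul, Real.sq_sqrt (by positivity)]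
    push_cast
    rw [pow_add]
  rw [← h2] at h1
  exact le_of_eq ((pow_left_inj₀ (norm_nonneg _) (by positivity) two_ne_zero).mp h1)

theorem eq_zero [Fintype V] {ψ : AddChar F ℂ} (hψ : ψ ≠ 1) {q : QuadraticForm F V}
    (h : ¬ NonDef q) : ∑ x, ψ (q x) = 0 := by
  apply Gau.gau_zero hψ q
  unfold NonDef at h
  push Not at h
  exact h

theorem sum_norm_le [Fintype F] [Fintype V] {ψ : AddChar F ℂ} (hψ : ψ ≠ 1)
    (Q : (Fin r → F) →ₗ[F] QuadraticForm F V) {C : ℕ}
    (hC : ∀ d, Nat.card {ν : Fin r → F // NonDef (Q ν) ∧ finrank F (defQ Q ν) = d} ≤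
      C * Nat.card F ^ d) (T : Finset (Fin r → F)) {E : ℝ} (hE0 : 0 ≤ E)
    (hE : ∀ ν ∈ T, NonDef (Q ν) → √(Nat.card F : ℝ) ^ (finrank F V + finrank F (rad (Q ν))) *
      (Nat.card F : ℝ) ^ finrank F (defQ Q ν) ≤ E) :
    ∑ ν ∈ T, ‖∑ x, ψ (Q ν x)‖ ≤ E * ((r + 1) * C) := by
  classical
  have hq : (0 : ℝ) < Nat.card F := by exact_mod_cast Nat.card_pos
  have hw := sum_weight_le (fun ν => NonDef (Q ν)) (fun ν => finrank F (defQ Q ν))
    (fun ν => by
      calc finrank F (defQ Q ν) ≤ finrank F (Fin r → F) := Submodule.finrank_le _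
        _ = r := by simp) hC
  have h1 : ∑ ν ∈ T, ‖∑ x, ψ (Q ν x)‖ = ∑ ν ∈ T.filter (fun ν => NonDef (Q ν)),
      ‖∑ x, ψ (Q ν x)‖ := by
    rw [Finset.sum_filter]
    refine Finset.sum_congr rfl fun ν _ => ?_
    split_ifs with h
    · rfl
    · rw [eq_zero hψ h, norm_zero]
  rw [h1]
  calc _ ≤ ∑ ν ∈ T.filter (fun ν => NonDef (Q ν)),
        E * ((Nat.card F : ℝ) ^ finrank F (defQ Q ν))⁻¹ := by
        refine Finset.sum_le_sum fun ν hν => ?_
        obtain ⟨h2, h3⟩ := Finset.mem_filter.mp hν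
        refine (norm_le hψ h3).trans ?_
        rw [← div_eq_mul_inv, le_div_iff₀ (by positivity)]
        exact hE ν h2 h3
    _ ≤ ∑ ν ∈ Finset.univ.filter (fun ν => NonDef (Q ν)),
        E * ((Nat.card F : ℝ) ^ finrank F (defQ Q ν))⁻¹ := by
        refine Finset.sum_le_sum_of_subset_of_nonneg ?_ (fun ν _ _ => by positivity)
        exact Finset.filter_subset_filter _ (Finset.subset_univ _)
    _ = E * ∑ ν ∈ Finset.univ.filter (fun ν => NonDef (Q ν)),
        ((Nat.card F : ℝ) ^ finrank F (defQ Q ν))⁻¹ := by rw [Finset.mul_sum]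
    _ ≤ _ := by gcongr

end gauss

end MP_f80667_ag.Gs
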