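import Mathlib
import Pool.Agent.Lib.MP_f80667_ag.Frm
import Pool.Agent.Lib.MP_f80667_ag.GsA

/-!
# Nonsingular common zeros over a large finite field: the two inequalities
-/

namespace MP_f80667_ag.Gs

open QuadraticMap Module MP_f80667_ag.Frm

universe u

variable {F : Type u} [Field F] [Finite F] {V : Type u} [AddCommGroup V] [Module F V]
  [FiniteDimensional F V] {r n : ℕ}

/-- The hypothesis `(*)`: a space `D ≠ 0` of forms vanishing on `U` has
`2 dim D + 1 + dim U ≤ dim V`. -/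
def Star (Q : (Fin r → F) →ₗ[F] QuadraticForm F V) : Prop :=
  ∀ (D : Submodule F (Fin r → F)) (U : Submodule F V), D ≠ ⊥ →
    (∀ k ∈ D, ∀ x ∈ U, Q k x = 0) → 2 * finrank F D + 1 + finrank F U ≤ finrank F V

theorem lower (Q : (Fin r → F) →ₗ[F] QuadraticForm F V) (hstar : Star Q) {C : ℕ}
    (hC : ∀ d, Nat.card {ν : Fin r → F // NonDef (Q ν) ∧ finrank F (defQ Q ν) = d} ≤
      C * Nat.card F ^ d) :
    (Nat.card F : ℝ) ^ finrank F V - (Nat.card F : ℝ) ^ finrank F V / √(Nat.card F : ℝ) *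
      ((r + 1) * C) ≤ (Nat.card F : ℝ) ^ r * Nat.card {x : V // ∀ k, Q k x = 0} := by
  classical
  let _ := Fintype.ofFinite F
  have : Finite V := Module.finite_of_finite F
  let _ := Fintype.ofFinite V
  set q : ℝ := (Nat.card F : ℝ) with hqdef
  have hq1 : (1 : ℝ) ≤ q := by
    have : 1 ≤ Nat.card F := Nat.card_pos
    rw [hqdef]; exact_mod_cast this
  have hs1 : 1 ≤ √q := Real.one_le_sqrt.mpr hq1
  have hs2 : √q * √q = q := Real.mul_self_sqrt (by linarith)
  obtain ⟨ψ, hψ⟩ := Gau.exists_char F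
  have hcount := Gau.count_eq hψ Q
  have hbound := sum_norm_le hψ Q hC (Finset.univ.erase 0)
    (E := q ^ finrank F V / √q) (by positivity) (by
      intro ν hν hnd
      have hν0 : ν ≠ 0 := (Finset.mem_erase.mp hν).1
      have hmem : ν ∈ defQ Q ν := hnd
      have hD : defQ Q ν ≠ ⊥ := fun h0 => hν0 (by
        rw [h0] at hmem; exact (Submodule.mem_bot F).mp hmem)
      have h := hstar (defQ Q ν) (rad (Q ν)) hD (fun k hk x hx => hk x hx)
      rw [le_div_iff₀ (by positivity)]
      have e1 : q ^ finrank F (defQ Q ν) = √q ^ (2 * finrank F (defQ Q ν)) := by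
        rw [pow_mul, pow_two, hs2]
      have e2 : q ^ finrank F V = √q ^ (2 * finrank F V) := by
        rw [pow_mul, pow_two, hs2]
      rw [e1, e2, ← pow_add, ← pow_succ]
      exact pow_le_pow_right₀ hs1 (by omega))
  have h0 : ∑ x : V, ψ (Q 0 x) = (q ^ finrank F V : ℝ) := by
    simp only [map_zero, zero_apply, AddChar.map_zero_eq_one, Finset.sum_const, nsmul_eq_mul,
      mul_one, Finset.card_univ]
    rw [← Nat.card_eq_fintype_card, Module.natCard_eq_pow_finrank (K := F)]
    simp [hqdef]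
  have hsplit : ∑ ν, ∑ x, ψ (Q ν x) = (q ^ finrank F V : ℝ) +
      ∑ ν ∈ Finset.univ.erase 0, ∑ x, ψ (Q ν x) := by
    rw [← h0, Finset.add_sum_erase Finset.univ (fun ν => ∑ x, ψ (Q ν x)) (Finset.mem_univ 0)]
  have h1 : (q ^ r * Nat.card {x : V // ∀ k, Q k x = 0} - q ^ finrank F V : ℝ) =
      ((∑ ν ∈ Finset.univ.erase 0, ∑ x, ψ (Q ν x) : ℂ)) := by
    have : (∑ ν ∈ Finset.univ.erase 0, ∑ x, ψ (Q ν x) : ℂ) =
        ∑ ν, ∑ x, ψ (Q ν x) - (q ^ finrank F V : ℝ) := by rw [hsplit]; ring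
    rw [this, ← hcount]
    push_cast
    rfl
  have h2 : |q ^ r * Nat.card {x : V // ∀ k, Q k x = 0} - q ^ finrank F V| ≤
      q ^ finrank F V / √q * ((r + 1) * C) := by
    rw [← Real.norm_eq_abs, ← Complex.norm_real, h1]
    exact (norm_sum_le _ _).trans hbound
  have h3 := (abs_le.mp h2).1
  linarith

/-- The common zeros of the forms `Q k`, `k ∈ defB Q μ`, in the radical of `Q μ`. -/
def sub (Q : (Fin r → F) →ₗ[F] QuadraticForm F V) (μ : Fin r → F) : Submodule F V where
  carrier := {x | x ∈ rad (Q μ) ∧ ∀ k ∈ defB Q μ, Q k x = 0}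
  zero_mem' := ⟨Submodule.zero_mem _, fun k _ => by simp⟩
  add_mem' := fun {a b} ha hb => ⟨Submodule.add_mem _ ha.1 hb.1, fun k hk => by
    have h := hk a ha.1 b hb.1
    rw [polar, ha.2 k hk, hb.2 k hk, sub_zero, sub_zero] at h
    exact h⟩
  smul_mem' := fun c x hx => ⟨Submodule.smul_mem _ c hx.1, fun k hk => by
    rw [QuadraticMap.map_smul, hx.2 k hk, smul_zero]⟩

theorem upper (Q : (Fin r → F) →ₗ[F] QuadraticForm F V) (hstar : Star Q) {C : ℕ}
    {μ : Fin r → F} (hμ : μ ≠ 0)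
    (hC : ∀ d, Nat.card {ν : Fin r → F // NonDef (restr Q (sub Q μ) ν) ∧
      finrank F (defQ (restr Q (sub Q μ)) ν) = d} ≤ C * Nat.card F ^ d) :
    (Nat.card F : ℝ) ^ r * Nat.card {x : sub Q μ // ∀ k, restr Q (sub Q μ) k x = 0} ≤
      (Nat.card F : ℝ) ^ finrank F V / Nat.card F * ((Nat.card F : ℝ) ^ finrank F (defB Q μ))⁻¹ *
        ((r + 1) * C) := by
  classical
  let _ := Fintype.ofFinite F
  have : Finite V := Module.finite_of_finite F
  let _ := Fintype.ofFinite V
  let _ := Fintype.ofFinite (sub Q μ)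
  set q : ℝ := (Nat.card F : ℝ) with hqdef
  have hq1 : (1 : ℝ) ≤ q := by
    have : 1 ≤ Nat.card F := Nat.card_pos
    rw [hqdef]; exact_mod_cast this
  have hs1 : 1 ≤ √q := Real.one_le_sqrt.mpr hq1
  have hs2 : √q * √q = q := Real.mul_self_sqrt (by linarith)
  obtain ⟨ψ, hψ⟩ := Gau.exists_char F
  have hcount := Gau.count_eq hψ (restr Q (sub Q μ))
  have hD0 : defB Q μ ≠ ⊥ := fun h0 => hμ (by
    have := self_mem_defB Q μ
    rw [h0] at this; exact (Submodule.mem_bot F).mp this)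
  have hA := hstar (defB Q μ) (sub Q μ) hD0 (fun k hk x hx => hx.2 k hk)
  have hbound := sum_norm_le hψ (restr Q (sub Q μ)) hC Finset.univ
    (E := q ^ finrank F V / q * (q ^ finrank F (defB Q μ))⁻¹) (by positivity) (by
      intro ν _ hnd
      have hD : defQ (restr Q (sub Q μ)) ν ≠ ⊥ := fun h0 => hD0 (by
        rw [eq_bot_iff, ← h0]
        intro k hk x _
        exact x.2.2 k hk)
      have hB := hstar (defQ (restr Q (sub Q μ)) ν)
        ((rad (restr Q (sub Q μ) ν)).map (sub Q μ).subtype) hD (fun k hk x hx => by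
          obtain ⟨y, hy, rfl⟩ := hx
          exact hk y hy)
      have e0 : finrank F ((rad (restr Q (sub Q μ) ν)).map (sub Q μ).subtype) =
          finrank F (rad (restr Q (sub Q μ) ν)) :=
        Submodule.finrank_map_subtype_eq _ _
      rw [e0] at hB
      have e1 : ∀ m : ℕ, q ^ m = √q ^ (2 * m) := fun m => by
        rw [pow_mul, pow_two, hs2]
      rw [← div_eq_mul_inv, div_div, le_div_iff₀ (by positivity)]
      rw [e1 (finrank F (defQ (restr Q (sub Q μ)) ν)), e1 (finrank F V),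
        e1 (finrank F (defB Q μ))]
      have e3 : q = √q ^ 2 := by rw [pow_two, hs2]
      calc √q ^ (finrank F (sub Q μ) + finrank F (rad (restr Q (sub Q μ) ν))) *
            √q ^ (2 * finrank F (defQ (restr Q (sub Q μ)) ν)) *
            (q * √q ^ (2 * finrank F (defB Q μ)))
          = √q ^ (finrank F (sub Q μ) + finrank F (rad (restr Q (sub Q μ) ν)) +
            2 * finrank F (defQ (restr Q (sub Q μ)) ν) + (2 + 2 * finrank F (defB Q μ))) := by
            rw [pow_add _ _ (2 + 2 * finrank F (defB Q μ)), pow_add _ 2, ← e3,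
              pow_add _ (finrank F (sub Q μ) + finrank F (rad (restr Q (sub Q μ) ν)))]
        _ ≤ √q ^ (2 * finrank F V) := pow_le_pow_right₀ hs1 (by omega))
  have h1 : (q ^ r * Nat.card {x : sub Q μ // ∀ k, restr Q (sub Q μ) k x = 0} : ℝ) =
      ((∑ ν, ∑ x, ψ (restr Q (sub Q μ) ν x) : ℂ)) := by
    rw [← hcount]
    push_cast
    rfl
  calc _ = ‖((q ^ r * Nat.card {x : sub Q μ // ∀ k, restr Q (sub Q μ) k x = 0} : ℝ) : ℂ)‖ := by
        rw [Complex.norm_real, Real.norm_eq_abs, abs_of_nonneg (by positivity)]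
    _ ≤ _ := by rw [h1]; exact (norm_sum_le _ _).trans hbound

/-- The singular zeros are covered by the zeros in the subspaces `sub Q μ`, `μ ≠ 0`. -/
theorem sing_le [Fintype F] (Q : (Fin r → F) →ₗ[F] QuadraticForm F V)
    [DecidableEq (Fin r → F)] :
    Nat.card {x : V // (∀ k, Q k x = 0) ∧ ∃ k, k ≠ 0 ∧ ∀ y, polar (Q k) x y = 0} ≤
      ∑ μ ∈ Finset.univ.erase (0 : Fin r → F),
        Nat.card {x : sub Q μ // ∀ k, restr Q (sub Q μ) k x = 0} := by
  classical
  have : Finite V := Module.finite_of_finite F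
  let _ := Fintype.ofFinite V
  have h1 : ∀ μ : Fin r → F, Nat.card {x : sub Q μ // ∀ k, restr Q (sub Q μ) k x = 0} =
      (Finset.univ.filter (fun x : V => x ∈ sub Q μ ∧ ∀ k, Q k x = 0)).card := by
    intro μ
    rw [← Fintype.card_subtype, ← Nat.card_eq_fintype_card]
    refine Nat.card_congr
      ⟨fun x => ⟨x.1.1, x.1.2, fun k => x.2 k⟩, fun x => ⟨⟨x.1, x.2.1⟩, fun k => x.2.2 k⟩,
        fun x => rfl, fun x => rfl⟩
  simp only [h1]
  rw [Nat.card_eq_fintype_card, Fintype.card_subtype]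
  refine le_trans (Finset.card_le_card ?_) (Finset.card_biUnion_le)
  intro x hx
  obtain ⟨h2, k, hk, h3⟩ := (Finset.mem_filter.mp hx).2
  refine Finset.mem_biUnion.mpr ⟨k, Finset.mem_erase.mpr ⟨hk, Finset.mem_univ _⟩,
    Finset.mem_filter.mpr ⟨Finset.mem_univ _, ⟨h3, fun j _ => h2 j⟩, h2⟩⟩

/-- The main step: with the two counting lemmas with constants `C` and `C'`, a common zero at
which the polar forms are independent exists as soon as `q` is large. -/
theorem exists_zero (Q : (Fin r → F) →ₗ[F] QuadraticForm F V) (hstar : Star Q) {C C' : ℕ}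
    (hC : ∀ U : Submodule F V, ∀ d, Nat.card {ν : Fin r → F // NonDef (restr Q U ν) ∧
      finrank F (defQ (restr Q U) ν) = d} ≤ C * Nat.card F ^ d)
    (hC0 : ∀ d, Nat.card {ν : Fin r → F // NonDef (Q ν) ∧ finrank F (defQ Q ν) = d} ≤
      C * Nat.card F ^ d)
    (hC' : ∀ d, Nat.card {μ : Fin r → F // finrank F (defB Q μ) = d} ≤ C' * Nat.card F ^ d)
    (hq : 4 * ((r + 1) * C) ^ 2 + 2 * ((r + 1) * C * ((r + 1) * C')) + 1 ≤ Nat.card F) :
    ∃ x : V, (∀ k, Q k x = 0) ∧ ∀ k, k ≠ 0 → ∃ y, polar (Q k) x y ≠ 0 := by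
  classical
  let _ := Fintype.ofFinite F
  have : Finite V := Module.finite_of_finite F
  let _ := Fintype.ofFinite V
  by_contra hno
  push Not at hno
  have hq1 : (1 : ℝ) ≤ Nat.card F := by
    have : 1 ≤ Nat.card F := Nat.card_pos
    exact_mod_cast this
  have hlow := lower Q hstar hC0
  have hsing := sing_le Q
  have heq : Nat.card {x : V // ∀ k, Q k x = 0} ≤
      Nat.card {x : V // (∀ k, Q k x = 0) ∧ ∃ k, k ≠ 0 ∧ ∀ y, polar (Q k) x y = 0} := by
    refine Nat.card_le_card_of_injective (fun x => ⟨x.1, x.2, hno x.1 x.2⟩) ?_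
    intro a b hab
    exact Subtype.ext (congrArg (fun z => z.1) hab)
  have hsum : (Nat.card F : ℝ) ^ r * ∑ μ ∈ Finset.univ.erase (0 : Fin r → F),
      (Nat.card {x : sub Q μ // ∀ k, restr Q (sub Q μ) k x = 0} : ℝ) ≤
      (Nat.card F : ℝ) ^ finrank F V / Nat.card F * ((r + 1) * C) * ((r + 1) * C') := by
    rw [Finset.mul_sum]
    have hw := sum_weight_le (fun _ => True) (fun μ => finrank F (defB Q μ))
      (fun μ => by
        calc finrank F (defB Q μ) ≤ finrank F (Fin r → F) := Submodule.finrank_le _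
          _ = r := by simp) (C := C') (fun d => by simpa using hC' d)
    simp only [Finset.filter_true] at hw
    calc _ ≤ ∑ μ ∈ Finset.univ.erase (0 : Fin r → F),
          (Nat.card F : ℝ) ^ finrank F V / Nat.card F * ((r + 1) * C) *
            ((Nat.card F : ℝ) ^ finrank F (defB Q μ))⁻¹ := by
          refine Finset.sum_le_sum fun μ hμ => ?_
          refine (upper Q hstar (Finset.mem_erase.mp hμ).1 (hC (sub Q μ))).trans (le_of_eq ?_)
          ring
      _ ≤ ∑ μ, (Nat.card F : ℝ) ^ finrank F V / Nat.card F * ((r + 1) * C) *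
            ((Nat.card F : ℝ) ^ finrank F (defB Q μ))⁻¹ :=
          Finset.sum_le_sum_of_subset_of_nonneg (Finset.subset_univ _)
            (fun μ _ _ => by positivity)
      _ = (Nat.card F : ℝ) ^ finrank F V / Nat.card F * ((r + 1) * C) *
            ∑ μ, ((Nat.card F : ℝ) ^ finrank F (defB Q μ))⁻¹ := by rw [Finset.mul_sum]
      _ ≤ _ := by gcongr
  have h1 : (Nat.card {x : V // ∀ k, Q k x = 0} : ℝ) ≤ ∑ μ ∈ Finset.univ.erase (0 : Fin r → F),
      (Nat.card {x : sub Q μ // ∀ k, restr Q (sub Q μ) k x = 0} : ℝ) := by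
    exact_mod_cast heq.trans hsing
  set q : ℝ := (Nat.card F : ℝ) with hqdef
  have hqp : 0 < q := by linarith
  have hs2 : √q * √q = q := Real.mul_self_sqrt (by linarith)
  have hs0 : 0 < √q := Real.sqrt_pos.mpr hqp
  have h2 : q ^ finrank F V - q ^ finrank F V / √q * ((r + 1) * C) ≤
      q ^ finrank F V / q * ((r + 1) * C) * ((r + 1) * C') :=
    hlow.trans ((mul_le_mul_of_nonneg_left h1 (by positivity)).trans hsum)
  have h3 : (1 : ℝ) - (r + 1) * C / √q ≤ (r + 1) * C * ((r + 1) * C') / q := by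
    have hv : 0 < q ^ finrank F V := by positivity
    have e1 : q ^ finrank F V - q ^ finrank F V / √q * ((r + 1) * C) =
        q ^ finrank F V * (1 - (r + 1) * C / √q) := by ring
    have e2 : q ^ finrank F V / q * ((r + 1) * C) * ((r + 1) * C') =
        q ^ finrank F V * ((r + 1) * C * ((r + 1) * C') / q) := by ring
    rw [e1, e2] at h2
    exact le_of_mul_le_mul_left h2 hv
  have hq' : 4 * (((r : ℝ) + 1) * C) ^ 2 + 2 * (((r : ℝ) + 1) * C * ((r + 1) * C')) + 1 ≤ q := by
    rw [hqdef]; exact_mod_cast hq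
  set a : ℝ := (r + 1) * C with ha
  set b : ℝ := (r + 1) * C' with hb
  have ha0 : 0 ≤ a := by positivity
  have hb0 : 0 ≤ b := by positivity
  have hab0 : 0 ≤ a * b := by positivity
  have h4 : a / √q < 1 / 2 := by
    rw [div_lt_iff₀ hs0]
    have : 2 * a < √q := by
      apply Real.lt_sqrt_of_sq_lt
      nlinarith
    linarith
  have h5 : a * b / q < 1 / 2 := by
    rw [div_lt_iff₀ hqp]
    nlinarith
  linarith

end MP_f80667_ag.Gs
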