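import Mathlib
import Pool.Agent.Lib.MP_f80667_ag.Frm
import Pool.Agent.Lib.MP_f80667_ag.GsB
import Pool.Agent.Lib.MP_f80667_ag.HB.LemC2

/-!
# Nonsingular common zeros of a family of quadratic forms over a large finite field

The final statements of the finite field part: abstract form and matrix form.
-/

namespace MP_f80667_ag.Gs

open QuadraticMap Module MP_f80667_ag.Frm

universe u

/-- Counting lemma, quadratic version. -/
theorem lemC_Q (r n : ℕ) : ∃ C : ℕ, ∀ (F : Type u) [Field F] [Finite F] (V : Type u)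
    [AddCommGroup V] [Module F V] [FiniteDimensional F V], finrank F V ≤ n →
    ∀ (Q : (Fin r → F) →ₗ[F] QuadraticForm F V) (d : ℕ),
    Nat.card {ν : Fin r → F // (∀ x ∈ rad (Q ν), Q ν x = 0) ∧ finrank F (defQ Q ν) = d} ≤
      C * Nat.card F ^ d := by
  classical
  refine ⟨MPf80667.HB.cC r n, fun F _ _ V _ _ _ hV Q d => ?_⟩
  have := Fintype.ofFinite F
  rw [Nat.card_eq_fintype_card, Nat.card_eq_fintype_card, Fintype.card_subtype]
  refine (MPf80667.HB.count_Q' Q d _ fun ν hν => ?_).trans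
    (Nat.mul_le_mul_right _ (MPf80667.HB.cC_mono hV))
  rw [Finset.mem_filter] at hν
  exact ⟨hν.2.1, hν.2.2.le⟩

/-- Counting lemma, bilinear version. -/
theorem lemC_B (r n : ℕ) : ∃ C : ℕ, ∀ (F : Type u) [Field F] [Finite F] (V : Type u)
    [AddCommGroup V] [Module F V] [FiniteDimensional F V], finrank F V ≤ n →
    ∀ (Q : (Fin r → F) →ₗ[F] QuadraticForm F V) (d : ℕ),
    Nat.card {μ : Fin r → F // finrank F (defB Q μ) = d} ≤ C * Nat.card F ^ d := by
  classical
  refine ⟨MPf80667.HB.cC r n, fun F _ _ V _ _ _ hV Q d => ?_⟩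
  have := Fintype.ofFinite F
  rw [Nat.card_eq_fintype_card, Nat.card_eq_fintype_card, Fintype.card_subtype]
  refine (MPf80667.HB.count_B' Q d _ fun ν hν => ?_).trans
    (Nat.mul_le_mul_right _ (MPf80667.HB.cC_mono hV))
  rw [Finset.mem_filter] at hν
  exact hν.2.le

/-- Finite fields, abstract form: if every nonzero space `D` of parameters whose forms vanish on a
subspace `U` satisfies `2 dim D + 1 + dim U ≤ dim V`, and the field is large, there is a common
zero at which the polar forms are linearly independent. -/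
theorem fin_zero_abs (r n : ℕ) : ∃ C : ℕ, ∀ (F : Type u) [Field F] [Finite F],
    C ≤ Nat.card F → ∀ (V : Type u) [AddCommGroup V] [Module F V] [FiniteDimensional F V],
    finrank F V ≤ n → ∀ Q : (Fin r → F) →ₗ[F] QuadraticForm F V,
    (∀ (D : Submodule F (Fin r → F)) (U : Submodule F V), D ≠ ⊥ →
      (∀ k ∈ D, ∀ x ∈ U, Q k x = 0) → 2 * finrank F D + 1 + finrank F U ≤ finrank F V) →
    ∃ x : V, (∀ k, Q k x = 0) ∧ ∀ k, k ≠ 0 → ∃ y, polar (Q k) x y ≠ 0 := by
  obtain ⟨C, hC⟩ := lemC_Q.{u} r n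
  obtain ⟨C', hC'⟩ := lemC_B.{u} r n
  refine ⟨4 * ((r + 1) * C) ^ 2 + 2 * ((r + 1) * C * ((r + 1) * C')) + 1, ?_⟩
  intro F _ _ hF V _ _ _ hV Q hstar
  exact exists_zero Q hstar
    (fun U d => hC F U ((Submodule.finrank_le U).trans hV) (restr Q U) d)
    (fun d => hC F V hV Q d) (fun d => hC' F V hV Q d) hF

/-- Finite fields, matrix form (the interface of (B2) to (B1)). -/
theorem fin_zero (r n : ℕ) : ∃ C : ℕ, ∀ (F : Type u) [Field F] [Finite F],
    C ≤ Nat.card F → ∀ A : Fin r → Matrix (Fin n) (Fin n) F,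
    (∀ (D : Submodule F (Fin r → F)) (U : Submodule F (Fin n → F)), D ≠ ⊥ →
      (∀ μ ∈ D, ∀ x ∈ U, ∑ k, μ k * (x ⬝ᵥ (A k).mulVec x) = 0) →
      2 * finrank F D + 1 + finrank F U ≤ n) →
    ∃ x : Fin n → F, (∀ k, x ⬝ᵥ (A k).mulVec x = 0) ∧
      LinearIndependent F (fun k => (A k + (A k).transpose).mulVec x) := by
  obtain ⟨C, hC⟩ := fin_zero_abs.{u} r n
  refine ⟨C, ?_⟩
  intro F _ _ hF A hstar
  have hval : ∀ (μ : Fin r → F) (x : Fin n → F),
      ofMat A μ x = ∑ k, μ k * (x ⬝ᵥ (A k).mulVec x) := by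
    intro μ x
    rw [ofMat_apply]
    simp only [Matrix.sum_mulVec, Matrix.smul_mulVec, dotProduct_sum, dotProduct_smul,
      smul_eq_mul]
  obtain ⟨x, hx0, hx1⟩ := hC F hF (Fin n → F) (by simp) (ofMat A) (by
    intro D U hD hU
    have h := hstar D U hD (fun μ hμ x hx => by rw [← hval]; exact hU μ hμ x hx)
    simpa using h)
  refine ⟨x, fun k => by rw [← ofMat_single]; exact hx0 _, ?_⟩
  rw [Fintype.linearIndependent_iff]
  intro g hg
  by_contra hne
  have hg0 : g ≠ 0 := fun h => hne (fun i => by rw [h]; rfl)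
  obtain ⟨y, hy⟩ := hx1 g hg0
  apply hy
  have h2 : ((∑ k, g k • A k) + (∑ k, g k • A k).transpose).mulVec x = 0 := by
    rw [← hg, Matrix.transpose_sum, ← Finset.sum_add_distrib, Matrix.sum_mulVec]
    refine Finset.sum_congr rfl fun k _ => ?_
    rw [Matrix.transpose_smul, ← smul_add, Matrix.smul_mulVec]
  rw [polar_comm, polar_ofMat, h2, dotProduct_zero]

end MP_f80667_ag.Gs
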