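import Pool.Agent.Lib.MP_f80667_ag.Hens

/-! # Lifting a nonsingular zero of quadratic forms (helper22) -/

set_option autoImplicit false

namespace Pool.Agent.Lib.MP_f80667_ag

open MvPolynomial Matrix

/-- A matrix over a field with linearly independent rows has a right inverse. -/
theorem exists_right_inverse_of_row {F : Type*} [Field F] {r n : ℕ} (J : Matrix (Fin r) (Fin n) F)
    (h : LinearIndependent F J.row) : ∃ W : Matrix (Fin n) (Fin r) F, J * W = 1 := by
  classical
  rw [← Matrix.mulVec_surjective_iff_exists_right_inverse]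
  have h1 : J.rank = r := by simpa using h.rank_matrix
  have h2 : LinearMap.range J.mulVecLin = ⊤ := by
    apply Submodule.eq_top_of_finrank_eq
    rw [Module.finrank_fintype_fun_eq_card, Fintype.card_fin]
    exact h1
  intro y
  obtain ⟨x, hx⟩ := LinearMap.range_eq_top.1 h2 y
  exact ⟨x, by simpa using hx⟩

/-- the quadratic form of a matrix, as a polynomial -/
noncomputable def qpoly {R : Type*} [CommRing R] {n : ℕ} (A : Matrix (Fin n) (Fin n) R) :
    MvPolynomial (Fin n) R := ∑ i, ∑ j, X i * (C (A i j) * X j)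

theorem eval_qpoly {R : Type*} [CommRing R] {n : ℕ} (A : Matrix (Fin n) (Fin n) R)
    (x : Fin n → R) : eval x (qpoly A) = x ⬝ᵥ (A *ᵥ x) := by
  simp only [qpoly, map_sum, map_mul, eval_X, eval_C, dotProduct, mulVec, Finset.mul_sum]

theorem eval_pderiv_qpoly {R : Type*} [CommRing R] {n : ℕ} (A : Matrix (Fin n) (Fin n) R)
    (x : Fin n → R) (l : Fin n) : eval x (pderiv l (qpoly A)) = ((A + Aᵀ) *ᵥ x) l := by
  classical
  have h1 : ∀ i j, eval x (pderiv l (X i * (C (A i j) * X j))) =
      (if j = l then x i * A i j else 0) + (if i = l then A i j * x j else 0) := by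
    intro i j
    rw [Derivation.leibniz, Derivation.leibniz, pderiv_C, pderiv_X, pderiv_X]
    simp only [smul_eq_mul, mul_zero, add_zero, map_add, map_mul, eval_X, eval_C, Pi.single_apply]
    split_ifs <;> simp [*]
  simp only [qpoly, map_sum, h1, Finset.sum_add_distrib]
  rw [Matrix.add_mulVec, Pi.add_apply]
  have h2 : ∑ i, ∑ j, (if i = l then A i j * x j else 0) = (A *ᵥ x) l := by
    rw [Finset.sum_eq_single l]
    · simp [mulVec, dotProduct]
    · intro i _ hi
      simp [hi]
    · simp
  have h3 : ∑ i, ∑ j, (if j = l then x i * A i j else 0) = (Aᵀ *ᵥ x) l := by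
    simp only [Finset.sum_ite_eq', Finset.mem_univ, if_true, mulVec, dotProduct,
      Matrix.transpose_apply]
    exact Finset.sum_congr rfl fun i _ => mul_comm _ _
  rw [h2, h3, add_comm]

/-- **A nonsingular zero over the residue field lifts.** -/
theorem hensel_quad {O : Type*} [CommRing O] [IsLocalRing O]
    [IsAdicComplete (IsLocalRing.maximalIdeal O) O] {r n : ℕ}
    (A : Fin r → Matrix (Fin n) (Fin n) O) (x : Fin n → IsLocalRing.ResidueField O)
    (hx : ∀ k, x ⬝ᵥ ((A k).map (IsLocalRing.residue O) *ᵥ x) = 0)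
    (hlin : LinearIndependent (IsLocalRing.ResidueField O)
      (fun k => ((A k).map (IsLocalRing.residue O) +
        ((A k).map (IsLocalRing.residue O))ᵀ) *ᵥ x)) :
    ∃ y : Fin n → O, (∀ i, IsLocalRing.residue O (y i) = x i) ∧ ∀ k, y ⬝ᵥ (A k *ᵥ y) = 0 := by
  classical
  have hsurj : Function.Surjective (IsLocalRing.residue O) := IsLocalRing.residue_surjective
  choose a ha using fun i => hsurj (x i)
  obtain ⟨J, hJ⟩ : ∃ J : Matrix (Fin r) (Fin n) (IsLocalRing.ResidueField O),
      J = Matrix.of fun k l => (((A k).map (IsLocalRing.residue O) +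
        ((A k).map (IsLocalRing.residue O))ᵀ) *ᵥ x) l := ⟨_, rfl⟩
  obtain ⟨W, hW⟩ := exists_right_inverse_of_row J (by rw [hJ]; exact hlin)
  choose w hw using fun (i : Fin n) (j : Fin r) => hsurj (W i j)
  have hker : ∀ z : O, z ∈ IsLocalRing.maximalIdeal O ↔ IsLocalRing.residue O z = 0 := fun z =>
    (IsLocalRing.residue_eq_zero_iff z).symm
  have hA : ∀ k, IsLocalRing.residue O (a ⬝ᵥ (A k *ᵥ a)) = 0 := by
    intro k
    rw [← hx k]
    simp only [dotProduct, mulVec, map_sum, map_mul, ha, Matrix.map_apply]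
  have hD : ∀ k l, IsLocalRing.residue O (((A k + (A k)ᵀ) *ᵥ a) l) = J k l := by
    intro k l
    simp only [hJ, Matrix.of_apply, mulVec, dotProduct, map_sum, map_mul, ha, Matrix.add_apply,
      Matrix.transpose_apply, map_add, Matrix.map_apply]
  obtain ⟨b, hb1, hb2⟩ := hensel (IsLocalRing.maximalIdeal O) (fun k => qpoly (A k)) a w
    (fun k => by rw [eval_qpoly, hker]; exact hA k) (by
      intro i j
      rw [hker, map_sub, map_sum]
      have h1 : ∀ k, IsLocalRing.residue O (eval a (pderiv k (qpoly (A i))) * w k j) =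
          J i k * W k j := by
        intro k
        rw [map_mul, eval_pderiv_qpoly, hD, hw]
      rw [Finset.sum_congr rfl fun k _ => h1 k, ← Matrix.mul_apply, hW, Matrix.one_apply]
      split_ifs <;> simp)
  refine ⟨b, fun i => ?_, fun k => ?_⟩
  · have h1 := (hker _).1 (hb1 i)
    rw [map_sub, sub_eq_zero] at h1
    rw [h1, ha]
  · have h1 := hb2 k
    rwa [eval_qpoly] at h1

end Pool.Agent.Lib.MP_f80667_ag
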